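import Pool.Agent.Helper89.Hole.MDefs
import Pool.Agent.Helper89.Hole.Basic

/-!
Maker's firing phase: from `Phase1` to `Phase2`.
-/

namespace KHole

open Finset

namespace P2

/-- index of a grid line -/
abbrev LI (g r : ℕ) := Finset (Idx g r) × Finset (Idx g r)

variable {g r : ℕ} (p : Par g r)

/-- height above the grid line -/
noncomputable def h (l : LI g r) (z : Pt) : ℝ := z.2 - p.U l.1 * z.1 - p.V l.2

/-- the determinant of three lines -/
noncomputable def D (l₁ l₂ l₃ : LI g r) : ℝ :=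
  p.U l₁.1 * (p.V l₂.2 - p.V l₃.2) + p.U l₂.1 * (p.V l₃.2 - p.V l₁.2) +
    p.U l₃.1 * (p.V l₁.2 - p.V l₂.2)

theorem exists_pos_lb {ι : Type*} [Finite ι] (f : ι → ℝ) (P : ι → Prop)
    (hf : ∀ i, P i → 0 < f i) : ∃ δ > 0, ∀ i, P i → δ ≤ f i := by
  classical
  have := Fintype.ofFinite ι
  by_cases hne : (univ.filter P).Nonempty
  · obtain ⟨i, hi, hmin⟩ := exists_min_image _ f hne
    refine ⟨f i, hf i (mem_filter.1 hi).2, fun j hj => hmin j (mem_filter.2 ⟨mem_univ _, hj⟩)⟩
  · refine ⟨1, one_pos, fun i hi => ?_⟩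
    exact absurd ⟨i, mem_filter.2 ⟨mem_univ _, hi⟩⟩ hne

/-- the constants -/
structure Cst (Um gap η : ℝ) : Prop where
  Um_pos : 0 < Um
  gap_pos : 0 < gap
  η_pos : 0 < η
  U_le : ∀ A, p.U A ≤ Um
  U_gap : ∀ A A', A ≠ A' → gap ≤ |p.U A - p.U A'|
  V_gap : ∀ β β', β ≠ β' → 3 * η < |p.V β - p.V β'|
  D_gap : ∀ l₁ l₂ l₃, D p l₁ l₂ l₃ ≠ 0 → 6 * Um * η < |D p l₁ l₂ l₃|

theorem U_pos (hp : p.Generic) (A : Finset (Idx g r)) : 0 < p.U A :=
  prod_pos fun b _ => hp.u_pos b

theorem exists_cst (hp : p.Generic) : ∃ Um gap η, Cst p Um gap η := by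
  have hUpos := U_pos p hp
  set Um := ∑ A, p.U A with hUm
  have hUle : ∀ A, p.U A ≤ Um := fun A =>
    single_le_sum (fun A _ => (hUpos A).le) (mem_univ A)
  have hUmpos : 0 < Um := lt_of_lt_of_le (hUpos ∅) (hUle ∅)
  obtain ⟨gap, hgap, hgap'⟩ := exists_pos_lb
    (fun q : Finset (Idx g r) × Finset (Idx g r) => |p.U q.1 - p.U q.2|)
    (fun q => q.1 ≠ q.2) (fun q hq => abs_pos.2 (sub_ne_zero.2 fun h => hq (hp.U_inj h)))
  obtain ⟨v, hv, hv'⟩ := exists_pos_lb
    (fun q : Finset (Idx g r) × Finset (Idx g r) => |p.V q.1 - p.V q.2|)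
    (fun q => q.1 ≠ q.2) (fun q hq => abs_pos.2 (sub_ne_zero.2 fun h => hq (hp.V_inj h)))
  obtain ⟨d, hd, hd'⟩ := exists_pos_lb
    (fun q : LI g r × LI g r × LI g r => |D p q.1 q.2.1 q.2.2|)
    (fun q => D p q.1 q.2.1 q.2.2 ≠ 0) (fun q hq => abs_pos.2 hq)
  refine ⟨Um, gap, min (v / 4) (d / (7 * Um)), hUmpos, hgap, ?_, hUle, ?_, ?_, ?_⟩
  · exact lt_min (by positivity) (by positivity)
  · exact fun A A' h => hgap' (A, A') h
  · intro β β' h
    have h1 := hv' (β, β') h
    have h2 := min_le_left (v / 4) (d / (7 * Um))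
    simp only at h1
    linarith
  · intro l₁ l₂ l₃ h
    have h1 := hd' (l₁, l₂, l₃) h
    have h2 := min_le_right (v / 4) (d / (7 * Um))
    simp only at h1
    have h3 : 6 * Um * min (v / 4) (d / (7 * Um)) ≤ 6 * Um * (d / (7 * Um)) :=
      mul_le_mul_of_nonneg_left h2 (by positivity)
    have h4 : 6 * Um * (d / (7 * Um)) = 6 / 7 * d := by
      field_simp
    linarith

/-- `z` lies in the region that has to stay empty for the line `l`, with firing point `m` and first
point `a` -/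
def Reg (l : LI g r) (m a z : Pt) : Prop :=
  0 ≤ h p l z ∧ h p l z ≤ h p l m ∧ 0 ≤ det3 m a z

variable {p} {Um gap η : ℝ}

/-- data of a live line -/
structure Live (p : Par g r) (Um gap η : ℝ) (l : LI g r) (m a : Pt) : Prop where
  m_pos : 0 < m.1
  m_low : Um * m.1 < m.2 - p.V l.2
  m_high : m.2 - p.V l.2 < η
  on : p.OnLine l a
  m_lt : m.1 < a.1
  steep : h p l m < gap * (a.1 - m.1)

theorem Live.h_pos (hc : Cst p Um gap η) {l : LI g r} {m a : Pt} (hl : Live p Um gap η l m a) :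
    0 < h p l m := by
  have h1 := mul_le_mul_of_nonneg_right (hc.U_le l.1) hl.m_pos.le
  have h2 := hl.m_low
  unfold h
  linarith

theorem Live.h_lt (hU : ∀ A, 0 < p.U A) {l : LI g r} {m a : Pt} (hl : Live p Um gap η l m a) :
    h p l m < η := by
  have h1 := mul_pos (hU l.1) hl.m_pos
  have h2 := hl.m_high
  unfold h
  linarith

theorem det3_eq {l : LI g r} {m a z : Pt} (ha : p.OnLine l a) :
    det3 m a z = (a.1 - m.1) * ((z.2 - m.2) - p.U l.1 * (z.1 - m.1)) +
      h p l m * (z.1 - m.1) := by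
  unfold Par.OnLine at ha
  unfold det3 h
  rw [ha]
  ring

/-- slope of a point in the region as seen from `m` -/
theorem reg_slope (hc : Cst p Um gap η) {l : LI g r} {m a z : Pt}
    (hl : Live p Um gap η l m a) (hz : Reg p l m a z) (hzm : z ≠ m) :
    0 < z.1 - m.1 ∧ z.2 - m.2 ≤ p.U l.1 * (z.1 - m.1) ∧
      (p.U l.1 - gap) * (z.1 - m.1) < z.2 - m.2 := by
  obtain ⟨_, hz2, hz3⟩ := hz
  have hpos := hl.h_pos hc
  have ham : 0 < a.1 - m.1 := sub_pos.2 hl.m_lt
  have hY : z.2 - m.2 ≤ p.U l.1 * (z.1 - m.1) := by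
    unfold h at hz2
    linarith
  rw [det3_eq hl.on] at hz3
  have hX0 : 0 ≤ z.1 - m.1 := by
    by_contra hcon
    push Not at hcon
    have h1 : (a.1 - m.1) * ((z.2 - m.2) - p.U l.1 * (z.1 - m.1)) ≤ 0 :=
      mul_nonpos_of_nonneg_of_nonpos ham.le (by linarith)
    have h2 : h p l m * (z.1 - m.1) < 0 := mul_neg_of_pos_of_neg hpos hcon
    linarith
  have hX : 0 < z.1 - m.1 := by
    rcases hX0.eq_or_lt with h0 | h0
    · exfalso
      rw [← h0] at hz3 hY
      have h1 : 0 ≤ z.2 - m.2 := by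
        by_contra hcon
        push Not at hcon
        have := mul_neg_of_pos_of_neg ham hcon
        nlinarith
      apply hzm
      exact Prod.ext (by linarith) (by linarith)
    · exact h0
  refine ⟨hX, hY, ?_⟩
  have h1 : h p l m * (z.1 - m.1) < gap * (a.1 - m.1) * (z.1 - m.1) :=
    mul_lt_mul_of_pos_right hl.steep hX
  have h2 : 0 < (a.1 - m.1) * ((z.2 - m.2) - (p.U l.1 - gap) * (z.1 - m.1)) := by
    nlinarith
  have h3 := (mul_pos_iff_of_pos_left ham).1 h2
  linarith

/-- the kill bound -/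
theorem kill (hp : p.Generic) (hc : Cst p Um gap η) (L : Finset (LI g r))
    (m : Finset (Idx g r) → Pt) (a : LI g r → Pt)
    (hL : ∀ l ∈ L, Live p Um gap η l (m l.2) (a l)) (z : Pt)
    (hz : ∀ l ∈ L, z ≠ m l.2 ∧ Reg p l (m l.2) (a l) z) : L.card ≤ g := by
  have hU := U_pos p hp
  have hh : ∀ l ∈ L, 0 ≤ h p l z ∧ h p l z < η := fun l hl =>
    ⟨(hz l hl).2.1, lt_of_le_of_lt (hz l hl).2.2.1 ((hL l hl).h_lt hU)⟩
  refine hp.conc L ?_ ?_
  · intro l hl l' hl' hne
    have hne1 : l.1 = l'.1 → False := by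
      intro h1
      have h2 : l.2 ≠ l'.2 := fun h2 => hne (Prod.ext h1 h2)
      have h3 := hc.V_gap _ _ h2
      have h4 := hh l hl
      have h5 := hh l' hl'
      have h6 : p.V l.2 - p.V l'.2 = h p l' z - h p l z := by
        unfold h
        rw [h1]
        ring
      rw [h6] at h3
      have h7 : |h p l' z - h p l z| ≤ η := by
        rw [abs_le]
        constructor <;> linarith
      linarith [hc.η_pos]
    refine ⟨hne1, ?_⟩
    intro h2
    have hA : l.1 ≠ l'.1 := fun h1 => hne1 h1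
    obtain ⟨s1, s2, s3⟩ := reg_slope hc (hL l hl) (hz l hl).2 (hz l hl).1
    have q1 := hL l' hl'
    have q2 := hz l' hl'
    rw [← h2] at q1 q2
    obtain ⟨s4, s5, s6⟩ := reg_slope hc q1 q2.2 q2.1
    have h3 := hc.U_gap _ _ hA
    have h4 : (p.U l.1 - p.U l'.1) < gap := by
      have : (p.U l.1 - gap) * (z.1 - (m l.2).1) < p.U l'.1 * (z.1 - (m l.2).1) :=
        lt_of_lt_of_le s3 s5
      have := lt_of_mul_lt_mul_right this s1.le
      linarith
    have h5 : (p.U l'.1 - p.U l.1) < gap := by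
      have : (p.U l'.1 - gap) * (z.1 - (m l.2).1) < p.U l.1 * (z.1 - (m l.2).1) :=
        lt_of_lt_of_le s6 s2
      have := lt_of_mul_lt_mul_right this s1.le
      linarith
    have h6 : |p.U l.1 - p.U l'.1| < gap := by
      rw [abs_lt]
      constructor <;> linarith
    linarith
  · intro l₁ h₁ l₂ h₂ l₃ h₃
    by_contra hcon
    have h1 := hc.D_gap l₁ l₂ l₃ hcon
    have h2 : D p l₁ l₂ l₃ = (p.U l₂.1 - p.U l₃.1) * h p l₁ z + (p.U l₃.1 - p.U l₁.1) * h p l₂ z +
        (p.U l₁.1 - p.U l₂.1) * h p l₃ z := by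
      unfold D h
      ring
    have hb : ∀ A A', |p.U A - p.U A'| ≤ Um := by
      intro A A'
      have := hU A
      have := hU A'
      have := hc.U_le A
      have := hc.U_le A'
      rw [abs_le]
      constructor <;> linarith
    have hm : ∀ A A' : Finset (Idx g r), ∀ l ∈ L, |(p.U A - p.U A') * h p l z| ≤ Um * η := by
      intro A A' l hl
      rw [abs_mul]
      refine mul_le_mul (hb A A') ?_ (abs_nonneg _) hc.Um_pos.le
      rw [abs_of_nonneg (hh l hl).1]
      exact (hh l hl).2.le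
    have h3 : |D p l₁ l₂ l₃| ≤ Um * η + Um * η + Um * η := by
      rw [h2]
      refine (abs_add_le _ _).trans (add_le_add ((abs_add_le _ _).trans (add_le_add ?_ ?_)) ?_)
      · exact hm _ _ _ h₁
      · exact hm _ _ _ h₂
      · exact hm _ _ _ h₃
    have h4 : 0 < Um * η := mul_pos hc.Um_pos hc.η_pos
    linarith

/-- the position after the intercepts in `F` have been fired -/
def Inv (p : Par g r) (s : ℕ) (Um gap η : ℝ) (E : Finset (LI g r)) (a b : LI g r → Pt)
    (F : Finset (Finset (Idx g r))) (_n : ℕ) (M B : Finset Pt) : Prop :=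
  OkPos M B ∧ (∀ l ∈ E, a l ∈ M ∧ b l ∈ M) ∧
    ∃ (m : Finset (Idx g r) → Pt) (L : Finset (LI g r)), L ⊆ E ∧ (∀ l ∈ L, l.2 ∈ F) ∧
      (∀ β ∈ F, m β ∈ M) ∧ (∀ l ∈ L, Live p Um gap η l (m l.2) (a l)) ∧
      (∀ l ∈ L, ∀ z ∈ M ∪ B, Reg p l (m l.2) (a l) z → z = m l.2 ∨ z = a l ∨ z = b l) ∧
      (E.filter fun l => l.2 ∈ F).card ≤ L.card + g * s * F.card

/-- there is room for the firing point -/
theorem room (hc : Cst p Um gap η) (v x0 η1 : ℝ) (hx0 : 0 < x0) (hη1 : 0 < η1) :
    IsOpen {z : Pt | 0 < z.1 ∧ Um * z.1 < z.2 - v ∧ z.2 - v < η1 ∧ z.1 < x0 ∧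
      z.2 - v < gap * (x0 - z.1)} ∧
    {z : Pt | 0 < z.1 ∧ Um * z.1 < z.2 - v ∧ z.2 - v < η1 ∧ z.1 < x0 ∧
      z.2 - v < gap * (x0 - z.1)}.Nonempty := by
  constructor
  · refine IsOpen.and (isOpen_lt continuous_const continuous_fst) ?_
    refine IsOpen.and (isOpen_lt (by fun_prop) (by fun_prop)) ?_
    refine IsOpen.and (isOpen_lt (by fun_prop) (by fun_prop)) ?_
    exact IsOpen.and (isOpen_lt (by fun_prop) (by fun_prop))
      (isOpen_lt (by fun_prop) (by fun_prop))
  · have hU := hc.Um_pos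
    have hg := hc.gap_pos
    set t := (1 / 2 : ℝ) * min (min (η1 / (Um + 1)) x0) (gap * x0 / (Um + 1 + gap)) with ht
    have h0 : 0 < min (min (η1 / (Um + 1)) x0) (gap * x0 / (Um + 1 + gap)) :=
      lt_min (lt_min (by positivity) hx0) (by positivity)
    have ht0 : 0 < t := by positivity
    have h1 : t < η1 / (Um + 1) := by
      have := (min_le_left (min (η1 / (Um + 1)) x0) (gap * x0 / (Um + 1 + gap))).trans
        (min_le_left _ _)
      linarith
    have h2 : t < x0 := by
      have := (min_le_left (min (η1 / (Um + 1)) x0) (gap * x0 / (Um + 1 + gap))).trans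
        (min_le_right _ _)
      linarith
    have h3 : t < gap * x0 / (Um + 1 + gap) := by
      have := min_le_right (min (η1 / (Um + 1)) x0) (gap * x0 / (Um + 1 + gap))
      linarith
    rw [lt_div_iff₀ (by positivity)] at h1 h3
    refine ⟨(t, v + (Um + 1) * t), ht0, ?_, ?_, h2, ?_⟩
    · simp only
      linarith
    · simp only
      linarith
    · simp only
      linarith

/-- one firing move -/
theorem fire (hp : p.Generic) (hc : Cst p Um gap η) {s : ℕ} (c : ℕ → ℕ) (hcs : ∀ n, c n ≤ s)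
    (E : Finset (LI g r)) (a b : LI g r → Pt)
    (hE : ∀ l ∈ E, 0 < (a l).1 ∧ (a l).1 < (b l).1 ∧ p.OnLine l (a l) ∧ p.OnLine l (b l))
    (F : Finset (Finset (Idx g r))) (β : Finset (Idx g r)) (hβ : β ∉ F) (n : ℕ)
    (M B : Finset Pt) (hI : Inv p s Um gap η E a b F n M B) :
    Reach c (Inv p s Um gap η E a b (insert β F)) n M B := by
  classical
  have hU := U_pos p hp
  obtain ⟨hOk, habM, m, L, hLE, hLF, hmM, hLive, hEmp, hcard⟩ := hI
  -- the constants
  obtain ⟨x0, hx0, hx0'⟩ : ∃ x0 > 0, ∀ l ∈ E, x0 ≤ (a l).1 := by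
    obtain ⟨δ, hδ, hδ'⟩ := exists_pos_lb (fun l : E => (a l).1) (fun _ => True)
      (fun l _ => (hE l l.2).1)
    exact ⟨δ, hδ, fun l hl => hδ' ⟨l, hl⟩ trivial⟩
  obtain ⟨η2, hη2, hη2'⟩ : ∃ δ > 0, ∀ l ∈ E, ∀ z ∈ M ∪ B, 0 < h p l z → δ ≤ h p l z := by
    obtain ⟨δ, hδ, hδ'⟩ := exists_pos_lb (fun q : E × (M ∪ B : Finset Pt) => h p q.1 q.2)
      (fun q => 0 < h p q.1 q.2) (fun q hq => hq)
    exact ⟨δ, hδ, fun l hl z hz h0 => hδ' (⟨l, hl⟩, ⟨z, hz⟩) h0⟩
  set η1 := min η η2 with hη1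
  have hη1pos : 0 < η1 := lt_min hc.η_pos hη2
  obtain ⟨hO, hne⟩ := room hc (p.V β) x0 η1 hx0 hη1pos
  obtain ⟨w, hw, hwS, hwgen⟩ := exists_generic_insert (M ∪ B) hOk.2 _ hO hne
  obtain ⟨w1, w2, w3, w4, w5⟩ := hw
  have hLegal : MakerLegal M B w := ⟨hwS, hwgen⟩
  -- the new data
  set m' : Finset (Idx g r) → Pt := fun β' => if β' = β then w else m β' with hm'
  have hm'β : m' β = w := by simp [hm']
  have hm'ne : ∀ β' ∈ F, m' β' = m β' := by
    intro β' h'
    have : β' ≠ β := fun h => hβ (h ▸ h')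
    simp [hm', this]
  have hnew : ∀ l ∈ E, l.2 = β → Live p Um gap η l w (a l) := by
    intro l hl hlβ
    have hxa := hx0' l hl
    refine ⟨w1, by rw [hlβ]; exact w2, ?_, (hE l hl).2.2.1, by linarith, ?_⟩
    · rw [hlβ]
      exact lt_of_lt_of_le w3 (min_le_left _ _)
    · have h1 : h p l w < w.2 - p.V β := by
        unfold h
        rw [hlβ]
        have := mul_pos (hU l.1) w1
        linarith
      have h2 : gap * (x0 - w.1) ≤ gap * ((a l).1 - w.1) :=
        mul_le_mul_of_nonneg_left (by linarith) hc.gap_pos.le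
      linarith
  set Lβ := E.filter (fun l => l.2 = β) with hLβ
  have hdisj : Disjoint L Lβ := by
    rw [disjoint_left]
    intro l h1 h2
    exact hβ ((mem_filter.1 h2).2 ▸ hLF l h1)
  have hall : ∀ l ∈ L ∪ Lβ, Live p Um gap η l (m' l.2) (a l) := by
    intro l hl
    rcases mem_union.1 hl with h1 | h1
    · rw [hm'ne _ (hLF l h1)]
      exact hLive l h1
    · rw [(mem_filter.1 h1).2, hm'β]
      exact hnew l (mem_filter.1 h1).1 (mem_filter.1 h1).2
  have hallF : ∀ l ∈ L ∪ Lβ, l.2 ∈ insert β F := by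
    intro l hl
    rcases mem_union.1 hl with h1 | h1
    · exact mem_insert_of_mem (hLF l h1)
    · rw [(mem_filter.1 h1).2]
      exact mem_insert_self _ _
  have hallE : L ∪ Lβ ⊆ E := union_subset hLE (filter_subset _ _)
  have hmM' : ∀ β' ∈ insert β F, m' β' ∈ insert w M := by
    intro β' h'
    rcases mem_insert.1 h' with h1 | h1
    · rw [h1, hm'β]
      exact mem_insert_self _ _
    · rw [hm'ne _ h1]
      exact mem_insert_of_mem (hmM _ h1)
  -- emptiness before Breaker's answer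
  have hempty : ∀ l ∈ L ∪ Lβ, ∀ z ∈ insert w (M ∪ B), Reg p l (m' l.2) (a l) z →
      z = m' l.2 ∨ z = a l ∨ z = b l := by
    intro l hl z hz hreg
    rcases mem_union.1 hl with h1 | h1
    · rw [hm'ne _ (hLF l h1)] at hreg ⊢
      rcases mem_insert.1 hz with h2 | h2
      · exfalso
        have h3 := (hLive l h1).h_lt hU
        obtain ⟨r1, r2, _⟩ := hreg
        have hne' : l.2 ≠ β := fun h => hβ (h ▸ hLF l h1)
        have h4 := hc.V_gap _ _ hne'
        rw [h2] at r1 r2
        have h5 : h p l w = p.V β - p.V l.2 + ((w.2 - p.V β) - p.U l.1 * w.1) := by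
          unfold h
          ring
        have h6 : 0 < (w.2 - p.V β) - p.U l.1 * w.1 := by
          have := mul_le_mul_of_nonneg_right (hc.U_le l.1) w1.le
          linarith
        have h7 : (w.2 - p.V β) - p.U l.1 * w.1 < η := by
          have := mul_pos (hU l.1) w1
          have := lt_of_lt_of_le w3 (min_le_left η η2)
          linarith
        have h8 : |p.V l.2 - p.V β| ≤ 3 * η := by
          rw [abs_le]
          constructor <;> linarith
        linarith
      · exact hEmp l h1 z h2 hreg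
    · have hlE := (mem_filter.1 h1).1
      have hlβ := (mem_filter.1 h1).2
      rw [hlβ, hm'β] at hreg ⊢
      rcases mem_insert.1 hz with h2 | h2
      · exact Or.inl h2
      · right
        obtain ⟨r1, r2, _⟩ := hreg
        have h3 : h p l w < η2 := by
          have h4 : h p l w < w.2 - p.V β := by
            unfold h
            rw [hlβ]
            have := mul_pos (hU l.1) w1
            linarith
          have := lt_of_lt_of_le w3 (min_le_right η η2)
          linarith
        have h5 : h p l z = 0 := by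
          by_contra hcon
          have h6 : 0 < h p l z := lt_of_le_of_ne r1 (Ne.symm hcon)
          have := hη2' l hlE z h2 h6
          linarith
        by_contra hcon
        push Not at hcon
        obtain ⟨hza, hzb⟩ := hcon
        obtain ⟨e1, e2, e3, e4⟩ := hE l hlE
        have hab : a l ≠ b l := fun h => by
          rw [h] at e2
          exact lt_irrefl _ e2
        refine hOk.2.det3_ne (mem_union_left _ (habM l hlE).1) (mem_union_left _ (habM l hlE).2) h2
          hab (Ne.symm hza) (Ne.symm hzb) ?_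
        unfold Par.OnLine at e3 e4
        unfold h at h5
        have h7 : z.2 = p.U l.1 * z.1 + p.V l.2 := by linarith
        unfold det3
        rw [e3, e4, h7]
        ring
  refine Reach.step n M B w hLegal (fun R hR => Reach.here _ _ _ ?_)
  obtain ⟨hRc, hRd, hRg⟩ := hR
  -- the lines hit by Breaker
  have hkill : ∀ z ∈ R, ((L ∪ Lβ).filter fun l => Reg p l (m' l.2) (a l) z).card ≤ g := by
    intro z hz
    refine kill hp hc _ m' a (fun l hl => hall l (mem_filter.1 hl).1) z (fun l hl => ?_)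
    refine ⟨?_, (mem_filter.1 hl).2⟩
    intro h1
    rw [disjoint_left] at hRd
    refine hRd hz ?_
    rw [h1]
    exact mem_union_left _ (hmM' _ (hallF l (mem_filter.1 hl).1))
  set Bad := R.biUnion fun z => (L ∪ Lβ).filter fun l => Reg p l (m' l.2) (a l) z with hBad
  have hBadc : Bad.card ≤ g * s := by
    refine card_biUnion_le.trans ?_
    refine (sum_le_sum fun z hz => hkill z hz).trans ?_
    rw [sum_const, smul_eq_mul, mul_comm]
    refine Nat.mul_le_mul_left _ ?_
    rw [hRc]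
    exact hcs n
  refine ⟨⟨?_, ?_⟩, ?_, m', (L ∪ Lβ) \ Bad, ?_, ?_, ?_, ?_, ?_, ?_⟩
  · -- disjointness
    rw [disjoint_left]
    intro x hx hx'
    rcases mem_union.1 hx' with h1 | h1
    · rcases mem_insert.1 hx with h2 | h2
      · apply hwS
        rw [← h2]
        exact mem_union_right _ h1
      · exact disjoint_left.1 hOk.1 h2 h1
    · exact disjoint_left.1 hRd h1 (mem_union_left _ hx)
  · have : insert w M ∪ (B ∪ R) = insert w M ∪ B ∪ R := (union_assoc _ _ _).symm
    rw [this]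
    exact hRg
  · exact fun l hl => ⟨mem_insert_of_mem (habM l hl).1, mem_insert_of_mem (habM l hl).2⟩
  · exact sdiff_subset.trans hallE
  · exact fun l hl => hallF l (mem_sdiff.1 hl).1
  · exact hmM'
  · exact fun l hl => hall l (mem_sdiff.1 hl).1
  · intro l hl z hz hreg
    obtain ⟨hl1, hl2⟩ := mem_sdiff.1 hl
    by_cases hzR : z ∈ R
    · exfalso
      apply hl2
      exact mem_biUnion.2 ⟨z, hzR, mem_filter.2 ⟨hl1, hreg⟩⟩
    · refine hempty l hl1 z ?_ hreg
      rw [mem_union, mem_insert, mem_union] at hz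
      rw [mem_insert, mem_union]
      tauto
  · have h1 : (E.filter fun l => l.2 ∈ insert β F) = (E.filter fun l => l.2 ∈ F) ∪ Lβ := by
      ext l
      simp only [hLβ, mem_filter, mem_insert, mem_union]
      tauto
    have h2 : (E.filter fun l => l.2 ∈ insert β F).card ≤
        (E.filter fun l => l.2 ∈ F).card + Lβ.card := by
      rw [h1]
      exact card_union_le _ _
    have h3 : (L ∪ Lβ).card = L.card + Lβ.card := card_union_of_disjoint hdisj
    have h4 : (L ∪ Lβ).card ≤ ((L ∪ Lβ) \ Bad).card + Bad.card := by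
      have := le_card_sdiff Bad (L ∪ Lβ)
      omega
    have h5 : (insert β F).card = F.card + 1 := card_insert_of_notMem hβ
    rw [h5, Nat.mul_add]
    omega

/-- all intercepts are fired -/
theorem fire_all (hp : p.Generic) (hc : Cst p Um gap η) {s : ℕ} (c : ℕ → ℕ)
    (hcs : ∀ n, c n ≤ s) (E : Finset (LI g r)) (a b : LI g r → Pt)
    (hE : ∀ l ∈ E, 0 < (a l).1 ∧ (a l).1 < (b l).1 ∧ p.OnLine l (a l) ∧ p.OnLine l (b l))
    (n : ℕ) (M B : Finset Pt) (hI : Inv p s Um gap η E a b ∅ n M B)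
    (F : Finset (Finset (Idx g r))) : Reach c (Inv p s Um gap η E a b F) n M B := by
  classical
  induction F using Finset.induction_on with
  | empty => exact Reach.here _ _ _ hI
  | insert β F hβ ih =>
    exact ih.trans fun n M B h => fire hp hc c hcs E a b hE F β hβ n M B h

end P2

open P2 in
theorem reach_phase2 {s r : ℕ} (hs : 1 ≤ s) (p : Par (s+1) r) (hp : p.Generic) (c : ℕ → ℕ)
    (hc : ∀ n, c n ≤ s) (e : ℕ) (he : ((s+1) * s + (s+1)) * 2 ^ (r * (s+1)) ≤ e) (n : ℕ)
    (M B : Finset Pt) (h : Phase1 p e n M B) : Reach c (Phase2 (s+1)) n M B := by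
  classical
  obtain ⟨Um, gap, η, hcst⟩ := exists_cst p hp
  obtain ⟨hOk, E, hEe, hE0⟩ := h
  choose! a haM b hbM h1 h2 h3 h4 using hE0
  have hI : Inv p s Um gap η E a b ∅ n M B := by
    refine ⟨hOk, fun l hl => ⟨haM l hl, hbM l hl⟩, fun _ => (0, 0), ∅, empty_subset _, ?_, ?_, ?_,
      ?_, ?_⟩ <;> simp
  have hfire := fire_all hp hcst c hc E a b (fun l hl => ⟨h1 l hl, h2 l hl, h3 l hl, h4 l hl⟩)
    n M B hI univ
  refine hfire.trans fun n' M' B' hI' => Reach.here _ _ _ ?_
  obtain ⟨hOk', habM, m, L, hLE, _, hmM, hLive, hEmp, hcard⟩ := hI'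
  have hU := U_pos p hp
  have hN : Fintype.card (Finset (Idx (s + 1) r)) = 2 ^ (r * (s + 1)) := by
    simp [Fintype.card_finset]
  have hpos : 0 < 2 ^ (r * (s + 1)) := by positivity
  have hLc : (s + 1) * 2 ^ (r * (s + 1)) ≤ L.card := by
    have e1 : (E.filter fun l => l.2 ∈ (univ : Finset (Finset (Idx (s + 1) r)))) = E := by
      simp
    rw [e1, card_univ, hN, hEe] at hcard
    have e2 : ((s+1) * s + (s+1)) * 2 ^ (r * (s+1)) =
        (s + 1) * s * 2 ^ (r * (s + 1)) + (s + 1) * 2 ^ (r * (s + 1)) := by ring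
    omega
  have hpig : (univ : Finset (Finset (Idx (s + 1) r))).card * s < L.card := by
    rw [card_univ, hN]
    have : 2 ^ (r * (s + 1)) * s < (s + 1) * 2 ^ (r * (s + 1)) := by nlinarith
    omega
  obtain ⟨A, _, hA⟩ := exists_lt_card_fiber_of_mul_lt_card_of_maps_to
    (f := fun l : LI (s + 1) r => l.1) (fun l _ => mem_univ l.1) hpig
  obtain ⟨T, hT, hTc⟩ := exists_subset_card_eq (Nat.succ_le_of_lt hA)
  set φ := (T.equivFinOfCardEq hTc).symm with hφ
  have hTL : ∀ i, (φ i : LI (s + 1) r) ∈ L ∧ (φ i : LI (s + 1) r).1 = A := fun i =>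
    mem_filter.1 (hT (φ i).2)
  have hne : ∀ i j, i ≠ j → (φ i : LI (s + 1) r).2 ≠ (φ j : LI (s + 1) r).2 := by
    intro i j hij h5
    apply hij
    apply φ.injective
    apply Subtype.ext
    exact Prod.ext ((hTL i).2.trans (hTL j).2.symm) h5
  refine ⟨hOk', p.U A, fun i => p.V (φ i : LI (s + 1) r).2,
    fun i => m (φ i : LI (s + 1) r).2, fun i => a (φ i), fun i => b (φ i), ?_, ?_, ?_, ?_, ?_, ?_⟩
  · intro i
    exact ⟨hmM _ (mem_univ _), (habM _ (hLE (hTL i).1)).1, (habM _ (hLE (hTL i).1)).2⟩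
  · intro i
    have h5 := h3 _ (hLE (hTL i).1)
    have h6 := h4 _ (hLE (hTL i).1)
    unfold Par.OnLine at h5 h6
    rw [(hTL i).2] at h5 h6
    constructor <;> linarith
  · intro i
    exact ⟨(hLive _ (hTL i).1).m_lt, h2 _ (hLE (hTL i).1)⟩
  · intro i
    have h5 := (hLive _ (hTL i).1).h_pos hcst
    unfold P2.h at h5
    rw [(hTL i).2] at h5
    linarith
  · intro i j hij
    have h5 := hcst.V_gap _ _ (hne i j hij)
    have h6 := (hLive _ (hTL i).1).h_lt hU
    have h7 := (hLive _ (hTL j).1).h_lt hU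
    unfold P2.h at h6 h7
    rw [(hTL i).2] at h6
    rw [(hTL j).2] at h7
    have hη := hcst.η_pos
    rcases lt_abs.1 h5 with h8 | h8
    · right
      linarith
    · left
      linarith
  · intro i z hz z1 z2 z3
    refine hEmp _ (hTL i).1 z hz ⟨?_, ?_, z3⟩
    · unfold P2.h
      rw [(hTL i).2]
      linarith
    · unfold P2.h
      rw [(hTL i).2]
      linarith

end KHole
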